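import Mathlib
import Pool.Agent.Results.MP_04ddd8_lc.SelectorSigmaAlgebra

set_option autoImplicit false

/-!
# Selector algebras: the ideal of sets on which a map with small fibres is regressive

The notions `Thin`, `Reg`, `E` and the splitting of the points of countable cofinality are those of
`Pool.Agent.Results.MP_04ddd8_lc.SelectorSigmaAlgebra`.
-/

namespace Pool.Agent.Y587.SA

open Set Cardinal Pool.Agent.Results.MP_04ddd8_lc.SelectorSigmaAlgebra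

universe u

variable {X : Type u} [LinearOrder X]

/-- `Small κ A`: some map whose fibres on `A` have fewer than `κ` elements is regressive at all but
fewer than `κ` elements of `A`. -/
def Small (κ : Cardinal.{u}) (A : Set X) : Prop :=
  ∃ g : X → X, (∀ b, #{a : X | a ∈ A ∧ g a = b} < κ) ∧ #{a : X | a ∈ A ∧ ¬ g a < a} < κ

theorem Small.mono {κ : Cardinal.{u}} {A B : Set X} (h : Small κ B) (hAB : A ⊆ B) : Small κ A := by
  obtain ⟨g, h1, h2⟩ := h
  have e1 : ∀ b, {a : X | a ∈ A ∧ g a = b} ⊆ {a : X | a ∈ B ∧ g a = b} :=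
    fun b a ha => ⟨hAB ha.1, ha.2⟩
  have e2 : {a : X | a ∈ A ∧ ¬ g a < a} ⊆ {a : X | a ∈ B ∧ ¬ g a < a} :=
    fun a ha => ⟨hAB ha.1, ha.2⟩
  exact ⟨g, fun b => (mk_le_mk_of_subset (e1 b)).trans_lt (h1 b),
    (mk_le_mk_of_subset e2).trans_lt h2⟩

theorem small_empty {κ : Cardinal.{u}} (hκ : 0 < κ) : Small κ (∅ : Set X) :=
  ⟨id, fun b => by simpa using hκ, by simpa using hκ⟩

theorem Small.iUnion {κ : Cardinal.{u}} (hκ : κ.IsRegular) {ι : Type u} (hι : #ι < κ)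
    {A : ι → Set X} (h : ∀ i, Small κ (A i)) : Small κ (⋃ i, A i) := by
  classical
  choose g h1 h2 using h
  have hex : ∀ a : X, ∃ b : X, a ∈ ⋃ i, A i → ∃ i, a ∈ A i ∧ b = g i a := by
    intro a
    by_cases ha : a ∈ ⋃ i, A i
    · obtain ⟨i, hi⟩ := mem_iUnion.1 ha
      exact ⟨g i a, fun _ => ⟨i, hi, rfl⟩⟩
    · exact ⟨a, fun h => absurd h ha⟩
  choose f hf using hex
  refine ⟨f, fun b => ?_, ?_⟩
  · have hsub : {a : X | a ∈ ⋃ i, A i ∧ f a = b} ⊆ ⋃ i, {a : X | a ∈ A i ∧ g i a = b} := by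
      rintro a ⟨ha, hab⟩
      obtain ⟨i, hi, hi'⟩ := hf a ha
      exact mem_iUnion.2 ⟨i, hi, hi'.symm.trans hab⟩
    exact (mk_le_mk_of_subset hsub).trans_lt
      ((card_iUnion_lt_iff_forall_of_isRegular hκ hι).2 fun i => h1 i b)
  · have hsub : {a : X | a ∈ ⋃ i, A i ∧ ¬ f a < a} ⊆ ⋃ i, {a : X | a ∈ A i ∧ ¬ g i a < a} := by
      rintro a ⟨ha, hab⟩
      obtain ⟨i, hi, hi'⟩ := hf a ha
      exact mem_iUnion.2 ⟨i, hi, fun h => hab (hi' ▸ h)⟩
    exact (mk_le_mk_of_subset hsub).trans_lt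
      ((card_iUnion_lt_iff_forall_of_isRegular hκ hι).2 fun i => h2 i)

theorem Small.union {κ : Cardinal.{u}} (hκ : κ.IsRegular) {A B : Set X} (hA : Small κ A)
    (hB : Small κ B) : Small κ (A ∪ B) := by
  have h : Small κ (⋃ n : ULift.{u} Bool, if n.down then A else B) := by
    refine Small.iUnion hκ ?_ fun n => ?_
    · exact (lt_aleph0_of_finite _).trans_le hκ.aleph0_le
    · by_cases hn : n.down
      · simpa [hn] using hA
      · simpa [hn] using hB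
  refine h.mono ?_
  rintro x (hx | hx)
  · exact mem_iUnion.2 ⟨⟨true⟩, by simpa using hx⟩
  · exact mem_iUnion.2 ⟨⟨false⟩, by simpa using hx⟩

/-- the elements with fewer than `μ` predecessors -/
def Seg (X : Type u) [LinearOrder X] (μ : Cardinal.{u}) : Set X := {x | #(Iio x) < μ}

theorem Seg.lower {μ : Cardinal.{u}} {x y : X} (hxy : x ≤ y) (hy : y ∈ Seg X μ) : x ∈ Seg X μ :=
  (mk_le_mk_of_subset (Iio_subset_Iio hxy)).trans_lt hy

theorem mk_Iic_lt' {μ : Cardinal.{u}} (hμ : ℵ₀ ≤ μ) {x : X} (hx : #(Iio x) < μ) :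
    #(Iic x) < μ := by
  rw [← Iio_insert, mk_insert self_notMem_Iio]
  exact add_one_lt_of_lt hμ hx

variable [WellFoundedLT X]

theorem exists_bound {μ : Cardinal.{u}} (hμ : μ.IsRegular) (hμX : μ ≤ #X) (B : Set X)
    (hB : #B < μ) (hBS : B ⊆ Seg X μ) : ∃ z ∈ Seg X μ, ∀ x ∈ B, x < z := by
  have hD : #(⋃ x ∈ B, Iic x : Set X) < μ :=
    (card_biUnion_lt_iff_forall_of_isRegular hμ hB).2 fun x hx => mk_Iic_lt' hμ.aleph0_le (hBS hx)
  have hne : (⋃ x ∈ B, Iic x : Set X)ᶜ.Nonempty := by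
    rw [nonempty_compl]
    intro h
    rw [h, mk_univ] at hD
    exact absurd hD (not_lt.2 hμX)
  let z := (wellFounded_lt (α := X)).min _ hne
  have hz : z ∉ (⋃ x ∈ B, Iic x : Set X) := (wellFounded_lt (α := X)).min_mem _ hne
  have hmin : Iio z ⊆ (⋃ x ∈ B, Iic x : Set X) := by
    intro y hy
    by_contra hcon
    exact (wellFounded_lt (α := X)).not_lt_min _ hcon hy
  refine ⟨z, (mk_le_mk_of_subset hmin).trans_lt hD, fun x hx => ?_⟩
  by_contra hcon
  exact hz (mem_iUnion₂.2 ⟨x, hx, not_lt.1 hcon⟩)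

theorem reg_seg {μ : Cardinal.{u}} (hμ : μ.IsRegular) (hμ0 : ℵ₀ < μ) (hμX : μ ≤ #X) :
    Reg (Seg X μ) where
  seq f := by
    obtain ⟨z, hz, h⟩ := exists_bound hμ hμX (range fun n => (f n).1)
      ((countable_range _).le_aleph0.trans_lt hμ0) (by rintro _ ⟨n, rfl⟩; exact (f n).2)
    exact ⟨⟨z, hz⟩, fun n => h _ ⟨n, rfl⟩⟩
  ini a f := by
    have h1 : #(Iic a) < μ := by
      refine lt_of_le_of_lt ?_ (mk_Iic_lt' hμ.aleph0_le a.2)
      exact mk_le_of_injective (f := fun x : Iic a => (⟨x.1.1, x.2⟩ : Iic a.1))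
        fun x y h => Subtype.ext (Subtype.ext (congrArg (Subtype.val : Iic a.1 → X) h))
    obtain ⟨z, hz, h⟩ := exists_bound hμ hμX ((fun x => (f x).1) '' Iic a)
      (mk_image_le.trans_lt h1) (by rintro _ ⟨x, -, rfl⟩; exact (f x).2)
    exact ⟨⟨z, hz⟩, fun x hx => h _ ⟨x, hx, rfl⟩⟩

omit [WellFoundedLT X] in
theorem thin_Iic {μ : Cardinal.{u}} (z : Seg X μ) : Thin {a : Seg X μ | a ∈ E (Seg X μ) ∧ a ≤ z} := by
  refine ⟨fun _ => z, ?_⟩
  rintro a ⟨⟨s, hs, -⟩, haz⟩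
  exact ⟨s 0, hs 0, haz⟩

theorem thin_of_small {κ μ : Cardinal.{u}} (hμ : μ.IsRegular) (hκμ : κ ≤ μ) (hμX : μ ≤ #X)
    {A : Set X} (hA : Small κ A) : Thin {a : Seg X μ | a ∈ E (Seg X μ) ∧ a.1 ∈ A} := by
  classical
  obtain ⟨g, h1, h2⟩ := hA
  have hb : ∀ b : Seg X μ, ∃ c : Seg X μ, ∀ x : Seg X μ, x.1 ∈ A → g x.1 = b.1 → x < c := by
    intro b
    obtain ⟨z, hz, h⟩ := exists_bound hμ hμX ({a : X | a ∈ A ∧ g a = b.1} ∩ Seg X μ)
      (((mk_le_mk_of_subset inter_subset_left).trans_lt (h1 b.1)).trans_le hκμ) inter_subset_right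
    exact ⟨⟨z, hz⟩, fun x hx hg => h _ ⟨⟨hx, hg⟩, x.2⟩⟩
  choose c hc using hb
  obtain ⟨z, hz, h⟩ := exists_bound hμ hμX ({a : X | a ∈ A ∧ ¬ g a < a} ∩ Seg X μ)
      (((mk_le_mk_of_subset inter_subset_left).trans_lt h2).trans_le hκμ) inter_subset_right
  refine ⟨fun b => max (c b) ⟨z, hz⟩, ?_⟩
  rintro a ⟨⟨s, hs, -⟩, haA⟩
  by_cases hga : g a.1 < a.1
  · exact ⟨⟨g a.1, Seg.lower hga.le a.2⟩, hga, (hc _ a haA rfl).le.trans (le_max_left _ _)⟩
  · exact ⟨s 0, hs 0, (show a ≤ ⟨z, hz⟩ from (h _ ⟨⟨haA, hga⟩, a.2⟩).le).trans (le_max_right _ _)⟩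

/-- a single map with `#X` many fibres that are not small -/
theorem exists_map (hord : ord #X = Ordinal.type ((· < ·) : X → X → Prop)) {κ : Cardinal.{u}}
    (hκ : κ.IsRegular) (hκ0 : ℵ₀ < κ) (hκX : κ ≤ #X) :
    ∃ F : X → X, #X ≤ #{y : X | ¬ Small κ {a | F a = y}} := by
  classical
  -- the maps of the segments
  have hex : ∀ μ : Cardinal.{u}, ∃ f : X → X, μ.IsRegular → ℵ₀ < μ → μ ≤ #X →
      ∀ x : Seg X μ, ∃ y : Seg X μ, x ≤ y ∧
        ¬ Thin {a : Seg X μ | a ∈ E (Seg X μ) ∧ f a.1 = y.1} := by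
    intro μ
    by_cases h : μ.IsRegular ∧ ℵ₀ < μ ∧ μ ≤ #X
    · obtain ⟨f, hf⟩ := exists_split (reg_seg (X := X) h.1 h.2.1 h.2.2)
      refine ⟨fun a => if ha : a ∈ Seg X μ then (f ⟨a, ha⟩).1 else a, fun _ _ _ x => ?_⟩
      obtain ⟨y, hxy, hy⟩ := hf x
      refine ⟨y, hxy, fun hcon => hy (hcon.mono ?_)⟩
      rintro a ⟨haE, hay⟩
      refine ⟨haE, ?_⟩
      show (if ha : a.1 ∈ Seg X μ then (f ⟨a.1, ha⟩).1 else a.1) = y.1
      rw [dif_pos a.2]
      exact congrArg Subtype.val hay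
    · exact ⟨id, fun h1 h2 h3 => absurd ⟨h1, h2, h3⟩ h⟩
  choose f hf using hex
  let m : X → Cardinal.{u} := fun a => max κ (Order.succ #(Iio a))
  let F : X → X := fun a => f (m a) a
  -- the positive fibres are cofinal in the segments
  have key : ∀ μ : Cardinal.{u}, μ ≤ #X → (μ = κ ∨ ∃ ν, κ ≤ ν ∧ μ = Order.succ ν) →
      ∀ x : Seg X μ, ∃ y : Seg X μ, x ≤ y ∧ ¬ Small κ {a | F a = y.1} := by
    intro μ hμX hμ x
    have hreg : μ.IsRegular := by
      rcases hμ with rfl | ⟨ν, hν, rfl⟩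
      · exact hκ
      · exact isRegular_succ (hκ0.le.trans hν)
    have hκμ : κ ≤ μ := by
      rcases hμ with rfl | ⟨ν, hν, rfl⟩
      · exact le_rfl
      · exact hν.trans (Order.le_succ ν)
    have hbd : Thin {a : Seg X μ | a ∈ E (Seg X μ) ∧ m a.1 ≠ μ} := by
      rcases hμ with rfl | ⟨ν, hν, rfl⟩
      · refine thin_empty.mono ?_
        rintro a ⟨-, ha⟩
        exact absurd (max_eq_left (Order.succ_le_of_lt a.2)) ha
      · obtain ⟨z, hz⟩ := Ordinal.typein_surj ((· < ·) : X → X → Prop) (o := ν.ord) (by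
          rw [← hord]; exact ord_lt_ord.2 (Order.succ_le_iff.1 hμX))
        have hz' : #(Iio z) = ν := by
          have := congrArg Ordinal.card hz
          rw [card_ord] at this
          exact this
        have hzS : z ∈ Seg X (Order.succ ν) := by
          show #(Iio z) < _
          rw [hz']
          exact Order.lt_succ ν
        refine (thin_Iic ⟨z, hzS⟩).mono ?_
        rintro a ⟨haE, ha⟩
        refine ⟨haE, ?_⟩
        by_contra hcon
        have hlt : z < a.1 := not_le.1 hcon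
        have h1 : ν ≤ #(Iio a.1) :=
          hz'.symm.le.trans (mk_le_mk_of_subset (Iio_subset_Iio hlt.le))
        have h2 : #(Iio a.1) ≤ ν := Order.lt_succ_iff.1 a.2
        have h3 : #(Iio a.1) = ν := le_antisymm h2 h1
        apply ha
        show max κ (Order.succ #(Iio a.1)) = _
        rw [h3]
        exact max_eq_right hκμ
    obtain ⟨y, hxy, hy⟩ := hf μ hreg (hκ0.trans_le hκμ) hμX x
    refine ⟨y, hxy, fun hcon => hy ?_⟩
    refine ((thin_of_small hreg hκμ hμX hcon).union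
      (reg_seg hreg (hκ0.trans_le hκμ) hμX) hbd).mono ?_
    rintro a ⟨haE, hay⟩
    by_cases hm : m a.1 = μ
    · left
      refine ⟨haE, ?_⟩
      show f (m a.1) a.1 = _
      rw [hm]
      exact hay
    · right
      exact ⟨haE, hm⟩
  refine ⟨F, ?_⟩
  by_contra hcon
  rw [not_le] at hcon
  obtain ⟨μ, hμX, hμ, hYμ⟩ : ∃ μ : Cardinal.{u}, μ ≤ #X ∧
      (μ = κ ∨ ∃ ν, κ ≤ ν ∧ μ = Order.succ ν) ∧ #{y : X | ¬ Small κ {a | F a = y}} < μ := by
    by_cases h : #{y : X | ¬ Small κ {a | F a = y}} < κ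
    · exact ⟨κ, hκX, Or.inl rfl, h⟩
    · exact ⟨Order.succ _, Order.succ_le_of_lt hcon, Or.inr ⟨_, not_lt.1 h, rfl⟩, Order.lt_succ _⟩
  have hreg : μ.IsRegular := by
    rcases hμ with rfl | ⟨ν, hν, rfl⟩
    · exact hκ
    · exact isRegular_succ (hκ0.le.trans hν)
  obtain ⟨z, hz, hb⟩ := exists_bound hreg hμX ({y : X | ¬ Small κ {a | F a = y}} ∩ Seg X μ)
    ((mk_le_mk_of_subset inter_subset_left).trans_lt hYμ) inter_subset_right
  obtain ⟨y, hzy, hy⟩ := key μ hμX hμ ⟨z, hz⟩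
  exact absurd (hb y.1 ⟨hy, y.2⟩) (not_lt.2 hzy)

end Pool.Agent.Y587.SA
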