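import Pool.Agent.Y587.SA.Main

set_option autoImplicit false

/-!
# Selector algebras: generated algebras, and large families
-/

namespace Pool.Agent.Y587.SA

open Set Cardinal

universe u

section Gen

variable {X : Type u} (κ : Cardinal.{u}) (𝓕 : Set (Set X))

/-- labels -/
abbrev Lab : Type u := 𝓕 ⊕ (PUnit.{u+1} ⊕ κ.ord.ToType)

/-- arities -/
def Ar : Lab κ 𝓕 → Type u
  | Sum.inl _ => PEmpty
  | Sum.inr (Sum.inl _) => PUnit
  | Sum.inr (Sum.inr a) => Iio a

/-- one step of the evaluation -/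
def step : (Σ a : Lab κ 𝓕, Ar κ 𝓕 a → Set X) → Set X
  | ⟨Sum.inl A, _⟩ => A.1
  | ⟨Sum.inr (Sum.inl _), g⟩ => (g PUnit.unit)ᶜ
  | ⟨Sum.inr (Sum.inr _), g⟩ => ⋃ i, g i

/-- evaluation of a well-founded tree -/
def ev : WType (Ar κ 𝓕) → Set X := WType.elim (Set X) (step κ 𝓕)

theorem gen_alg : IsAlg κ (range (ev κ 𝓕)) where
  compl := by
    rintro _ ⟨w, rfl⟩
    exact ⟨WType.mk (Sum.inr (Sum.inl PUnit.unit)) (fun _ => w), rfl⟩
  iUnion := by
    intro ι A hι hA
    choose w hw using hA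
    obtain ⟨a, ha⟩ := Ordinal.typein_surj ((· < ·) : κ.ord.ToType → κ.ord.ToType → Prop)
      (o := (#ι).ord) (by rw [Ordinal.type_toType]; exact ord_lt_ord.2 hι)
    have ha' : #(Iio a) = #ι := by
      have := congrArg Ordinal.card ha
      rw [card_ord] at this
      exact this
    obtain ⟨e⟩ := Cardinal.eq.1 ha'
    refine ⟨WType.mk (Sum.inr (Sum.inr a)) (fun i => w (e i)), ?_⟩
    show ⋃ i : Iio a, ev κ 𝓕 (w (e i)) = ⋃ i, A i
    simp only [hw]
    exact e.surjective.iUnion_comp A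

theorem sub_gen : 𝓕 ⊆ range (ev κ 𝓕) := fun A hA =>
  ⟨WType.mk (Sum.inl ⟨A, hA⟩) (fun x => x.elim), rfl⟩

theorem mk_gen {ν : Cardinal.{u}} (hκ0 : ℵ₀ < κ) (h2 : 2 ≤ ν) (hν : ∀ l < κ, ν ^ l ≤ ν)
    (h𝓕 : #𝓕 ≤ ν) : #(range (ev κ 𝓕)) ≤ ν := by
  have hκν : κ ≤ ν := by
    by_contra hcon
    have h1 := hν ν (not_le.1 hcon)
    exact absurd ((cantor ν).trans_le ((power_le_power_right h2).trans h1)) (lt_irrefl _)
  have hν0 : ℵ₀ ≤ ν := hκ0.le.trans hκν
  refine mk_range_le.trans (WType.cardinalMk_le_of_le ?_)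
  have h3 : ∀ a : Lab κ 𝓕, ν ^ #(Ar κ 𝓕 a) ≤ ν := by
    rintro (A | _ | a)
    · refine hν _ ?_
      show #(PEmpty : Type u) < κ
      rw [mk_pempty]
      exact aleph0_pos.trans hκ0
    · refine hν _ ?_
      show #(PUnit : Type u) < κ
      rw [mk_punit]
      exact one_lt_aleph0.trans hκ0
    · refine hν _ ?_
      show #(Iio a) < κ
      have := mk_Iio_lt a (by rw [mk_ord_toType, Ordinal.type_toType])
      rwa [mk_ord_toType] at this
  refine (sum_le_sum _ _ h3).trans ?_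
  rw [sum_const']
  have hL : #(Lab κ 𝓕) ≤ ν := by
    show #(𝓕 ⊕ (PUnit.{u+1} ⊕ κ.ord.ToType)) ≤ ν
    rw [mk_sum, mk_sum, lift_id, lift_id, lift_id, lift_id, mk_punit, mk_ord_toType]
    refine add_le_of_le hν0 h𝓕 (add_le_of_le hν0 ?_ hκν)
    exact one_lt_aleph0.le.trans hν0
  exact (mul_le_mul' hL le_rfl).trans (mul_eq_self hν0).le

end Gen

/-- if at most `c < 2 ^ #X` of the unions over index sets lie in the algebra, there are `2 ^ #X` sets
whose pairwise symmetric differences are outside the algebra -/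
theorem many {X : Type u} [Infinite X] {κ : Cardinal.{u}} (hκ : ℵ₀ ≤ κ) {𝔑 : Set (Set X)}
    (h𝔑 : IsAlg κ 𝔑)
    {c : Cardinal.{u}} (hc : c < 2 ^ #X) {A : X → Set X} (hA : ∀ x y, x ≠ y → Disjoint (A x) (A y))
    (hcA : #{Z : Set X | ⋃ x ∈ Z, A x ∈ 𝔑} ≤ c) :
    ∃ 𝓐 : Set (Set X), #𝓐 = 2 ^ #X ∧ ∀ U ∈ 𝓐, ∀ V ∈ 𝓐, U ≠ V → symmDiff U V ∉ 𝔑 := by
  classical
  have huni : ∀ U V : Set X, U ∈ 𝔑 → V ∈ 𝔑 → U ∪ V ∈ 𝔑 := by
    intro U V hU hV
    have := h𝔑.iUnion (ULift.{u} Bool) (fun n => if n.down then U else V)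
      ((lt_aleph0_of_finite _).trans_le hκ) (fun n => by
        by_cases hn : n.down
        · simpa [hn] using hU
        · simpa [hn] using hV)
    have h2 : (⋃ n : ULift.{u} Bool, if n.down then U else V) = U ∪ V := by
      ext x
      simp only [mem_iUnion, mem_union]
      constructor
      · rintro ⟨⟨n⟩, hn⟩
        cases n
        · exact Or.inr (by simpa using hn)
        · exact Or.inl (by simpa using hn)
      · rintro (hx | hx)
        · exact ⟨⟨true⟩, by simpa using hx⟩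
        · exact ⟨⟨false⟩, by simpa using hx⟩
    rwa [h2] at this
  have hdiff : ∀ U V : Set X, U ∈ 𝔑 → V ∈ 𝔑 → U \ V ∈ 𝔑 := by
    intro U V hU hV
    have h1 := h𝔑.compl _ (huni _ _ (h𝔑.compl _ hU) hV)
    have h2 : (Uᶜ ∪ V)ᶜ = U \ V := by
      ext x; simp
    rwa [h2] at h1
  have hsd : ∀ U V : Set X, U ∈ 𝔑 → V ∈ 𝔑 → symmDiff U V ∈ 𝔑 := fun U V hU hV =>
    huni _ _ (hdiff _ _ hU hV) (hdiff _ _ hV hU)
  -- unions
  let T : Set X → Set X := fun Z => ⋃ x ∈ Z, A x
  have hT : ∀ Z W : Set X, symmDiff (T Z) (T W) = T (symmDiff Z W) := by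
    intro Z W
    ext a
    have hmem : ∀ (V : Set X) (x : X), a ∈ A x → (a ∈ T V ↔ x ∈ V) := by
      intro V x hx
      show a ∈ ⋃ x ∈ V, A x ↔ _
      rw [mem_iUnion₂]
      constructor
      · rintro ⟨y, hy, hay⟩
        by_cases hxy : x = y
        · rwa [hxy]
        · exact absurd hay (disjoint_left.1 (hA x y hxy) hx)
      · intro h
        exact ⟨x, h, hx⟩
    by_cases h : ∃ x, a ∈ A x
    · obtain ⟨x, hx⟩ := h
      rw [mem_symmDiff, hmem _ x hx, hmem _ x hx, hmem _ x hx, mem_symmDiff]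
    · have hn : ∀ V : Set X, a ∉ T V := by
        intro V hV
        obtain ⟨y, hy, hay⟩ := mem_iUnion₂.1 hV
        exact h ⟨y, hay⟩
      rw [mem_symmDiff]
      simp [hn]
  let S : Setoid (Set X) :=
    { r := fun U V => symmDiff U V ∈ 𝔑
      iseqv := by
        refine ⟨fun U => ?_, fun {U V} h => ?_, fun {U V W} h1 h2 => ?_⟩
        · rw [symmDiff_self]
          have := h𝔑.iUnion PEmpty (fun x => x.elim)
            ((by rw [mk_pempty]; exact aleph0_pos.trans_le hκ)) (fun i => i.elim)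
          simpa using this
        · rwa [symmDiff_comm] at h
        · have := hsd _ _ h1 h2
          rwa [symmDiff_assoc, symmDiff_symmDiff_cancel_left] at this }
  let cls : Set X → Quotient S := fun Z => Quotient.mk S (T Z)
  have hfib : ∀ q : Quotient S, #(cls ⁻¹' {q}) ≤ c := by
    intro q
    by_cases hq : (cls ⁻¹' {q}).Nonempty
    · obtain ⟨W, hW⟩ := hq
      refine le_trans ?_ hcA
      refine mk_le_of_injective (f := fun Z : cls ⁻¹' {q} =>
        (⟨symmDiff Z.1 W, ?_⟩ : {Z : Set X | ⋃ x ∈ Z, A x ∈ 𝔑})) ?_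
      · have h1 : cls Z.1 = cls W := Z.2.trans hW.symm
        have h2 : symmDiff (T Z.1) (T W) ∈ 𝔑 := Quotient.exact h1
        rw [hT] at h2
        exact h2
      · intro Z Z' h
        have h3 : symmDiff Z.1 W = symmDiff Z'.1 W := congrArg Subtype.val h
        exact Subtype.ext (symmDiff_left_injective W h3)
    · rw [not_nonempty_iff_eq_empty] at hq
      rw [hq]
      simp
  have hmul : #(Set X) ≤ #(Quotient S) * c := mk_le_mk_mul_of_mk_preimage_le cls hfib
  rw [mk_set] at hmul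
  have hinf : ℵ₀ ≤ (2 : Cardinal.{u}) ^ #X := (aleph0_le_mk X).trans (cantor _).le
  have hq : 2 ^ #X ≤ #(Quotient S) := by
    by_contra hcon
    exact absurd hmul (not_le.2 (mul_lt_of_lt hinf (not_le.1 hcon) hc))
  have hq' : #(range (Quotient.out : Quotient S → Set X)) = #(Quotient S) :=
    mk_range_eq _ Quotient.out_injective
  refine ⟨range (Quotient.out : Quotient S → Set X), le_antisymm ?_ ?_, ?_⟩
  · rw [← mk_set]
    exact mk_set_le _
  · rw [hq']
    exact hq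
  · rintro _ ⟨p, rfl⟩ _ ⟨q, rfl⟩ hne hcon
    apply hne
    have h1 : Quotient.mk S p.out = Quotient.mk S q.out := Quotient.sound hcon
    rw [Quotient.out_eq, Quotient.out_eq] at h1
    rw [h1]

end Pool.Agent.Y587.SA
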