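import Pool.Agent.Y587.SA.Core

set_option autoImplicit false

/-!
# Selector algebras on an arbitrary set
-/

namespace Pool.Agent.Y587.SA

open Set Cardinal

universe u

/-- `IsAlg κ 𝔑`: the family `𝔑` of subsets of `X` is closed under complements and under unions of
fewer than `κ` members. -/
structure IsAlg {X : Type u} (κ : Cardinal.{u}) (𝔑 : Set (Set X)) : Prop where
  compl : ∀ A ∈ 𝔑, Aᶜ ∈ 𝔑
  iUnion : ∀ (ι : Type u) (A : ι → Set X), #ι < κ → (∀ i, A i ∈ 𝔑) → ⋃ i, A i ∈ 𝔑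

section

variable {X : Type u} [LinearOrder X]

/-- sets that agree with a member of `𝔅` up to a small set -/
def Ext (κ : Cardinal.{u}) (𝔅 : Set (Set X)) : Set (Set X) :=
  {T | ∃ D ∈ 𝔅, Small κ {a | ¬ (a ∈ T ↔ a ∈ D)}}

theorem ext_alg {κ : Cardinal.{u}} (hκ : κ.IsRegular) {𝔅 : Set (Set X)} (h𝔅 : IsAlg κ 𝔅) :
    IsAlg κ (Ext κ 𝔅) where
  compl := by
    rintro A ⟨D, hD, hA⟩
    exact ⟨Dᶜ, h𝔅.compl D hD, hA.mono fun a ha h => ha (not_congr h)⟩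
  iUnion := by
    intro ι A hι hA
    choose D hD hA using hA
    refine ⟨⋃ i, D i, h𝔅.iUnion ι D hι hD, (Small.iUnion hκ hι hA).mono ?_⟩
    intro a ha
    by_contra hcon
    refine ha ?_
    rw [mem_iUnion] at hcon
    rw [mem_iUnion, mem_iUnion]
    refine exists_congr fun n => ?_
    by_contra hn
    exact hcon ⟨n, hn⟩

theorem sub_ext {κ : Cardinal.{u}} (hκ : 0 < κ) {𝔅 : Set (Set X)} : 𝔅 ⊆ Ext κ 𝔅 := by
  intro D hD
  refine ⟨D, hD, (small_empty hκ).mono ?_⟩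
  intro a ha
  exact absurd Iff.rfl ha

theorem small_of_lt {κ : Cardinal.{u}} {T : Set X} (hT : #T < κ) : Small κ T := by
  refine ⟨id, fun b => (mk_le_mk_of_subset ?_).trans_lt hT, (mk_le_mk_of_subset ?_).trans_lt hT⟩
  · exact fun a ha => ha.1
  · exact fun a ha => ha.1

theorem small_ext {κ : Cardinal.{u}} {𝔅 : Set (Set X)} (h𝔅 : ∅ ∈ 𝔅) {T : Set X}
    (hT : Small κ T) : T ∈ Ext κ 𝔅 := by
  refine ⟨∅, h𝔅, hT.mono ?_⟩
  intro a ha
  by_contra hcon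
  exact ha ⟨fun h => absurd h hcon, fun h => absurd h (notMem_empty a)⟩

variable [WellFoundedLT X]

theorem ext_select {κ : Cardinal.{u}} (hκ : 0 < κ) {𝔅 : Set (Set X)} (h𝔅 : ∅ ∈ 𝔅)
    (P : Set (Set X)) (hP : P.PairwiseDisjoint id) (hne : ∀ p ∈ P, p.Nonempty) :
    ∃ M ⊆ ⋃₀ P, (∀ p ∈ P, ∃! x, x ∈ M ∩ p) ∧
      ∀ T ⊆ ⋃₀ P \ M, (∀ p ∈ P, #(T ∩ p : Set X) < κ) → T ∈ Ext κ 𝔅 := by
  classical
  have hex : ∀ p : P, ∃ x ∈ p.1, ∀ y ∈ p.1, x ≤ y := fun p =>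
    ⟨(wellFounded_lt (α := X)).min p.1 (hne p.1 p.2),
      (wellFounded_lt (α := X)).min_mem p.1 (hne p.1 p.2), fun y hy =>
        not_lt.1 ((wellFounded_lt (α := X)).not_lt_min p.1 hy)⟩
  choose m hm hmin using hex
  have huniq : ∀ (p q : P) (x : X), x ∈ p.1 → x ∈ q.1 → p = q := by
    intro p q x hp hq
    by_contra hcon
    have h1 : Disjoint p.1 q.1 := hP p.2 q.2 fun h => hcon (Subtype.ext h)
    exact disjoint_left.1 h1 hp hq
  refine ⟨range m, ?_, ?_, ?_⟩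
  · rintro _ ⟨p, rfl⟩
    exact ⟨p.1, p.2, hm p⟩
  · intro p hp
    refine ⟨m ⟨p, hp⟩, ⟨⟨_, rfl⟩, hm ⟨p, hp⟩⟩, ?_⟩
    rintro y ⟨⟨q, rfl⟩, hy⟩
    rw [huniq q ⟨p, hp⟩ _ (hm q) hy]
  · intro T hT hTκ
    refine small_ext h𝔅 ?_
    have hg : ∀ a : X, ∃ b : X, a ∈ T → ∃ p : P, a ∈ p.1 ∧ b = m p := by
      intro a
      by_cases ha : a ∈ T
      · obtain ⟨p, hp, hap⟩ := (hT ha).1
        exact ⟨m ⟨p, hp⟩, fun _ => ⟨⟨p, hp⟩, hap, rfl⟩⟩
      · exact ⟨a, fun h => absurd h ha⟩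
    choose g hg using hg
    refine ⟨g, fun b => ?_, ?_⟩
    · by_cases hb : ∃ a ∈ T, g a = b
      · obtain ⟨a, ha, hab⟩ := hb
        obtain ⟨p, hap, hbp⟩ := hg a ha
        refine (mk_le_mk_of_subset ?_).trans_lt (hTκ p.1 p.2)
        rintro a' ⟨ha', hab'⟩
        obtain ⟨q, haq, hbq⟩ := hg a' ha'
        have hpq : p = q := huniq p q b (by rw [← hab, hbp]; exact hm p)
          (by rw [← hab', hbq]; exact hm q)
        exact ⟨ha', hpq ▸ haq⟩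
      · have h0 : {a : X | a ∈ T ∧ g a = b} = ∅ := by
          rw [eq_empty_iff_forall_notMem]
          rintro a ⟨ha, hab⟩
          exact hb ⟨a, ha, hab⟩
        rw [h0, mk_eq_zero]
        exact hκ
    · have h0 : {a : X | a ∈ T ∧ ¬ g a < a} = ∅ := by
        rw [eq_empty_iff_forall_notMem]
        rintro a ⟨ha, hab⟩
        obtain ⟨p, hap, hbp⟩ := hg a ha
        refine hab (lt_of_le_of_ne (by rw [hbp]; exact hmin p a hap) fun h => ?_)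
        exact (hT ha).2 ⟨p, by rw [← hbp, h]⟩
      rw [h0, mk_eq_zero]
      exact hκ

theorem ext_count (hord : ord #X = Ordinal.type ((· < ·) : X → X → Prop)) {κ : Cardinal.{u}}
    (hκ : κ.IsRegular) (hκ0 : ℵ₀ < κ) (hκX : κ ≤ #X) (𝔅 : Set (Set X)) :
    ∃ A : X → Set X, (∀ x y, x ≠ y → Disjoint (A x) (A y)) ∧
      #{Z : Set X | ⋃ x ∈ Z, A x ∈ Ext κ 𝔅} ≤ #𝔅 := by
  classical
  obtain ⟨F, hF⟩ := exists_map hord hκ hκ0 hκX
  obtain ⟨j⟩ : Nonempty (X ↪ {y : X | ¬ Small κ {a | F a = y}}) := hF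
  refine ⟨fun x => {a | F a = (j x).1}, ?_, ?_⟩
  · intro x y hxy
    rw [disjoint_left]
    intro a ha ha'
    exact hxy (j.injective (Subtype.ext (ha.symm.trans ha')))
  · choose D hD hT using fun Z : {Z : Set X | ⋃ x ∈ Z, {a | F a = (j x).1} ∈ Ext κ 𝔅} => Z.2
    refine mk_le_of_injective (f := fun Z => (⟨D Z, hD Z⟩ : 𝔅)) ?_
    intro Z Z' h
    have hDD : D Z = D Z' := congrArg Subtype.val h
    by_contra hne
    obtain ⟨x, hx⟩ : ∃ x : X, ¬ (x ∈ Z.1 ↔ x ∈ Z'.1) := by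
      by_contra hall
      simp only [not_exists, not_not] at hall
      exact hne (Subtype.ext (Set.ext hall))
    have hmem : ∀ (Z : Set X) (a : X), F a = (j x).1 →
        (a ∈ ⋃ x ∈ Z, {a | F a = (j x).1} ↔ x ∈ Z) := by
      intro Z a ha
      rw [mem_iUnion₂]
      constructor
      · rintro ⟨y, hy, hay⟩
        have : x = y := j.injective (Subtype.ext (ha.symm.trans hay))
        rwa [this]
      · intro h
        exact ⟨x, h, ha⟩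
    refine (j x).2 (((hT Z).union hκ (hT Z')).mono ?_)
    intro a ha
    by_contra hnot
    rw [mem_union, not_or] at hnot
    have h1 := not_not.1 hnot.1
    have h2 := not_not.1 hnot.2
    apply hx
    rw [← hmem Z.1 a ha, ← hmem Z'.1 a ha, h1, h2, hDD]

end

/-- The main theorem on selector algebras. -/
theorem main (κ : Cardinal.{u}) (hκ : κ.IsRegular) (hκ0 : ℵ₀ < κ) (X : Type u) (hX : κ ≤ #X)
    (𝔅 : Set (Set X)) (h𝔅 : IsAlg κ 𝔅) :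
    ∃ 𝔑 : Set (Set X), 𝔅 ⊆ 𝔑 ∧ IsAlg κ 𝔑 ∧ (∀ T : Set X, #T < κ → T ∈ 𝔑) ∧
      (∀ P : Set (Set X), P.PairwiseDisjoint id → (∀ p ∈ P, p.Nonempty) →
        ∃ M ⊆ ⋃₀ P, (∀ p ∈ P, ∃! x, x ∈ M ∩ p) ∧
          ∀ T ⊆ ⋃₀ P \ M, (∀ p ∈ P, #(T ∩ p : Set X) < κ) → T ∈ 𝔑) ∧
      ∃ A : X → Set X, (∀ x y, x ≠ y → Disjoint (A x) (A y)) ∧
        #{Z : Set X | ⋃ x ∈ Z, A x ∈ 𝔑} ≤ #𝔅 := by
  obtain ⟨_, _, hord⟩ := exists_ord_eq_type_lt X
  have hκ' : 0 < κ := aleph0_pos.trans hκ0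
  have h0 : ∅ ∈ 𝔅 := by
    have := h𝔅.iUnion PEmpty (fun x => x.elim) (by simpa using hκ') (fun i => i.elim)
    simpa using this
  exact ⟨Ext κ 𝔅, sub_ext hκ', ext_alg hκ h𝔅,
    fun T hT => small_ext h0 (small_of_lt hT), ext_select hκ' h0, ext_count hord hκ hκ0 hX 𝔅⟩

end Pool.Agent.Y587.SA
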